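import Pool.Agent.P.MP_52ab5a_al.A.Piso
import Pool.Agent.P.MP_52ab5a_al.A.Rk
import Pool.Agent.P.MP_52ab5a_al.A.Hsub
import Pool.Agent.P.MP_52ab5a_al.A.Nord
import Pool.Agent.P.MP_52ab5a_al.A.Bern
import Pool.Agent.P.MP_52ab5a_al.A.Mult
import Pool.Agent.P.MP_52ab5a_al.A.Len
import Pool.Agent.P.MP_52ab5a_al.A.Dec
import Pool.Agent.P.MP_52ab5a_al.K.Reg
import Pool.Agent.P.MP_52ab5a_al.K.Regh
import Pool.Agent.P.MP_52ab5a_al.K.Cech
import Pool.Agent.P.MP_52ab5a_al.K.Wd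
import Pool.Agent.P.MP_52ab5a_al.A.Red
import Pool.Agent.P.MP_52ab5a_al.A.Iadd
import Pool.Agent.P.MP_52ab5a_al.A.Iperm
import Pool.Agent.P.MP_52ab5a_al.A.Push
import Pool.Agent.P.MP_52ab5a_al.K.Cls
import Pool.Agent.P.MP_52ab5a_al.A.Dim
import Pool.Agent.P.MP_52ab5a_al.A.Affm
import Pool.Agent.P.MP_52ab5a_al.A.Resm
import Pool.Agent.P.MP_52ab5a_al.K.Aff
import Pool.Agent.P.MP_52ab5a_al.K.Laur
import Pool.Agent.P.MP_52ab5a_al.K.One
import Pool.Agent.P.MP_52ab5a_al.K.Gr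
import Pool.Agent.P.MP_52ab5a_al.K.Gen
import Pool.Agent.P.MP_52ab5a_al.K.Bija
import Pool.Agent.P.MP_52ab5a_al.K.Bij
import Pool.Agent.P.MP_52ab5a_al.K.Trans
import Pool.Agent.P.MP_52ab5a_al.A.Schur
import Pool.Agent.P.MP_52ab5a_al.A.Eig
import Pool.Agent.P.MP_52ab5a_al.A.Psol
import Pool.Agent.P.MP_52ab5a_al.A.Int
import Pool.Agent.P.MP_52ab5a_al.A.Diag
import Pool.Agent.P.MP_52ab5a_al.A.Desc
import Pool.Agent.P.MP_52ab5a_al.A.Ext
import Pool.Agent.P.MP_52ab5a_al.A.Fone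
import Pool.Agent.P.MP_52ab5a_al.A.Four
import Pool.Agent.P.MP_52ab5a_al.K.Res
import Pool.Agent.P.MP_52ab5a_al.K.Resn
import Pool.Agent.P.MP_52ab5a_al.K.Loct
import Pool.Agent.P.MP_52ab5a_al.K.Chi
import Pool.Agent.P.MP_52ab5a_al.A.Boxh
import Pool.Agent.P.MP_52ab5a_al.A.Boxa
import Pool.Agent.P.MP_52ab5a_al.A.Boxp
import Pool.Agent.P.MP_52ab5a_al.K.Kap
import Pool.Agent.P.MP_52ab5a_al.B.Clif
import Pool.Agent.P.MP_52ab5a_al.B.Kos
import Pool.Agent.P.MP_52ab5a_al.B.Br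
import Pool.Agent.P.MP_52ab5a_al.F.Adm
import Pool.Agent.P.MP_52ab5a_al.B.Vf
import Pool.Agent.P.MP_52ab5a_al.F.Rigq
import Pool.Agent.P.MP_52ab5a_al.F.Cell
import Pool.Agent.P.MP_52ab5a_al.F.Nf
import Pool.Agent.P.MP_52ab5a_al.K.Fub
import Pool.Agent.P.MP_52ab5a_al.F.Ginv
import Pool.Agent.P.MP_52ab5a_al.F.Basis
import Pool.Agent.P.MP_52ab5a_al.F.Grad
import Pool.Agent.P.MP_52ab5a_al.F.Strc
import Pool.Agent.P.MP_52ab5a_al.K.Line
import Pool.Agent.P.MP_52ab5a_al.F.Swap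
import Pool.Agent.P.MP_52ab5a_al.F.Div
import Pool.Agent.P.MP_52ab5a_al.F.Soc
import Pool.Agent.P.MP_52ab5a_al.F.Stra
import Pool.Agent.P.MP_52ab5a_al.F.Strb
import Pool.Agent.P.MP_52ab5a_al.F.Str
import Pool.Agent.P.MP_52ab5a_al.K.Ech
import Pool.Agent.P.MP_52ab5a_al.K.Expl
import Pool.Agent.P.MP_52ab5a_al.K.Alink
import Pool.Agent.P.MP_52ab5a_al.F.Trc
import Pool.Agent.P.MP_52ab5a_al.F.Abad
import Pool.Agent.P.MP_52ab5a_al.F.Agood
import Pool.Agent.P.MP_52ab5a_al.F.Stepa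
import Pool.Agent.P.MP_52ab5a_al.A.Boxs
import Pool.Agent.P.MP_52ab5a_al.A.Boxm
import Pool.Agent.P.MP_52ab5a_al.B.Spin
import Pool.Agent.P.MP_52ab5a_al.B.Cart
import Pool.Agent.P.MP_52ab5a_al.B.Mix
import Pool.Agent.P.MP_52ab5a_al.B.Hold
import Pool.Agent.P.MP_52ab5a_al.B.Rees
import Pool.Agent.P.MP_52ab5a_al.B.Latt
import Pool.Agent.P.MP_52ab5a_al.B.Wmx
import Pool.Agent.P.MP_52ab5a_al.B.Lag
import Pool.Agent.P.MP_52ab5a_al.B.Eu
import Pool.Agent.P.MP_52ab5a_al.B.Mup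
import Pool.Agent.P.MP_52ab5a_al.B.Fib
import Pool.Agent.P.MP_52ab5a_al.B.Fibw
import Pool.Agent.P.MP_52ab5a_al.B.Eqv
import Pool.Agent.P.MP_52ab5a_al.B.Fe
import Pool.Agent.P.MP_52ab5a_al.B.Ti
import Pool.Agent.P.MP_52ab5a_al.B.Low
import Pool.Agent.P.MP_52ab5a_al.B.Ann
import Pool.Agent.P.MP_52ab5a_al.B.Grk
import Pool.Agent.P.MP_52ab5a_al.B.Grm
import Pool.Agent.P.MP_52ab5a_al.B.Acy
import Pool.Agent.P.MP_52ab5a_al.B.Kz
import Pool.Agent.P.MP_52ab5a_al.B.Frame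
import Pool.Agent.P.MP_52ab5a_al.B.Pure
import Pool.Agent.P.MP_52ab5a_al.B.Cpa
import Pool.Agent.P.MP_52ab5a_al.B.Cpb
import Pool.Agent.P.MP_52ab5a_al.B.Kfg
import Pool.Agent.P.MP_52ab5a_al.B.Cp
import Pool.Agent.P.MP_52ab5a_al.B.Lifta
import Pool.Agent.P.MP_52ab5a_al.B.Lba
import Pool.Agent.P.MP_52ab5a_al.B.Lbb
import Pool.Agent.P.MP_52ab5a_al.B.Liftb
import Pool.Agent.P.MP_52ab5a_al.B.Liftc
import Pool.Agent.P.MP_52ab5a_al.B.Minw
import Pool.Agent.P.MP_52ab5a_al.B.Dirac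
import Pool.Agent.P.MP_52ab5a_al.F.Pbw
import Pool.Agent.P.MP_52ab5a_al.F.Intg
import Pool.Agent.P.MP_52ab5a_al.F.Rew
import Pool.Agent.P.MP_52ab5a_al.F.Shc
import Pool.Agent.P.MP_52ab5a_al.K.Prod
import Pool.Agent.P.MP_52ab5a_al.K.Prodi
import Pool.Agent.P.MP_52ab5a_al.F.Sha
import Pool.Agent.P.MP_52ab5a_al.F.Shb
import Pool.Agent.P.MP_52ab5a_al.F.Shuf
import Pool.Agent.P.MP_52ab5a_al.F.Rtr
import Pool.Agent.P.MP_52ab5a_al.F.Rdbl
import Pool.Agent.P.MP_52ab5a_al.F.Inst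
import Pool.Agent.P.MP_52ab5a_al.F.Uniq
import Pool.Agent.P.MP_52ab5a_al.O.Ocr
import Pool.Agent.P.MP_52ab5a_al.O.Otan
import Pool.Agent.P.MP_52ab5a_al.O.Oblk
import Pool.Agent.P.MP_52ab5a_al.O.Olift
import Pool.Agent.P.MP_52ab5a_al.O.Oone
import Pool.Agent.P.MP_52ab5a_al.O.Otwo
import Pool.Agent.P.MP_52ab5a_al.O.Oind
import Pool.Agent.P.MP_52ab5a_al.M.Main

namespace Pool.Agent.P.MP_52ab5a_al

theorem all_PISO : S_PISO := p_PISO
theorem all_RK : S_RK := p_RK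
theorem all_HSUB : S_HSUB := p_HSUB all_RK all_PISO
theorem all_NORD : S_NORD := p_NORD
theorem all_BERN : S_BERN := p_BERN all_NORD all_RK all_HSUB
theorem all_MULT : S_MULT := p_MULT all_PISO all_HSUB all_BERN
theorem all_LEN : S_LEN := p_LEN all_BERN
theorem all_DEC : S_DEC := p_DEC all_PISO all_HSUB all_LEN all_MULT
theorem all_REG : S_REG := p_REG
theorem all_REGH : S_REGH := p_REGH all_REG all_RK
theorem all_CECH : S_CECH := p_CECH all_PISO all_HSUB all_REG all_REGH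
theorem all_WD : S_WD := p_WD all_CECH
theorem all_RED : S_RED := p_RED all_RK
theorem all_IADD : S_IADD := p_IADD all_PISO all_HSUB all_RED
theorem all_IPERM : S_IPERM := p_IPERM all_PISO all_HSUB all_RED all_IADD
theorem all_PUSH : S_PUSH := p_PUSH all_HSUB all_RED all_IADD all_IPERM
theorem all_CLS : S_CLS := p_CLS all_WD all_REGH all_PUSH
theorem all_DIM : S_DIM := p_DIM all_RK all_PISO
theorem all_AFFM : S_AFFM := p_AFFM all_PISO all_HSUB
theorem all_RESM : S_RESM := p_RESM all_HSUB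
theorem all_AFF : S_AFF := p_AFF all_REG all_REGH all_CLS all_AFFM all_RESM
theorem all_LAUR : S_LAUR := p_LAUR all_PISO all_REG
theorem all_ONE : S_ONE := p_ONE all_PISO all_HSUB all_PUSH all_REG all_REGH all_CLS all_LAUR
theorem all_GR : S_GR := p_GR all_HSUB all_PUSH all_REG all_REGH all_CLS all_LAUR all_ONE
theorem all_GEN : S_GEN := p_GEN
theorem all_BIJA : S_BIJA := p_BIJA all_GEN
theorem all_BIJ : S_BIJ := p_BIJ all_PUSH all_REGH all_CLS all_AFF all_GR all_BIJA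
theorem all_TRANS : S_TRANS := p_TRANS all_PUSH all_CLS all_BIJ
theorem all_SCHUR : S_SCHUR := p_SCHUR
theorem all_EIG : S_EIG := p_EIG
theorem all_PSOL : S_PSOL := p_PSOL
theorem all_INT : S_INT := p_INT all_PISO all_NORD all_SCHUR all_EIG all_PSOL
theorem all_DIAG : S_DIAG := p_DIAG
theorem all_DESC : S_DESC := p_DESC
theorem all_EXT : S_EXT := p_EXT all_RK all_HSUB all_LEN all_NORD all_PISO all_DESC
theorem all_FONE : S_FONE := p_FONE all_PISO all_HSUB all_RED all_DIAG all_EXT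
theorem all_FOUR : S_FOUR := p_FOUR all_HSUB all_RED all_PUSH all_DIAG all_FONE
theorem all_RES : S_RES := p_RES all_PISO all_HSUB all_REG all_REGH all_CLS
theorem all_RESN : S_RESN := p_RESN all_HSUB all_PUSH all_REGH all_CLS all_AFF all_RESM all_RES
theorem all_LOCT : S_LOCT := p_LOCT all_PISO all_MULT all_DEC all_PUSH all_INT all_FOUR all_AFFM all_RESM all_REGH all_CLS all_AFF all_RESN all_TRANS all_HSUB
theorem all_CHI : S_CHI := p_CHI all_DIM all_PUSH all_REG all_CLS all_TRANS all_LOCT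
theorem all_BOXH : S_BOXH := p_BOXH
theorem all_BOXA : S_BOXA := p_BOXA all_PISO all_HSUB all_BOXH
theorem all_BOXP : S_BOXP := p_BOXP all_PISO all_HSUB all_RED all_PUSH all_RESM all_BOXH all_BOXA
theorem all_KAP : S_KAP := p_KAP all_PISO all_HSUB all_DIM all_PUSH all_RESM all_BOXH all_BOXP
theorem all_CLIF : S_CLIF := p_CLIF
theorem all_KOS : S_KOS := p_KOS all_PISO all_HSUB all_RED all_EXT all_IADD all_PUSH all_CLIF
theorem all_BR : S_BR := p_BR all_KOS all_REGH all_DIM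
theorem all_ADM : S_ADM := p_ADM
theorem all_VF : S_VF := p_VF
theorem all_RIGQ : S_RIGQ := p_RIGQ all_ADM all_VF
theorem all_CELL : S_CELL := p_CELL
theorem all_NF : S_NF := p_NF all_CELL
theorem all_FUB : S_FUB := p_FUB all_PUSH all_AFFM all_RESM all_REGH all_CLS all_AFF
theorem all_GINV : S_GINV := p_GINV all_ADM all_CELL all_NF all_TRANS all_FUB all_CHI all_BR
theorem all_BASIS : S_BASIS := p_BASIS
theorem all_GRAD : S_GRAD := p_GRAD all_ADM all_BASIS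
theorem all_STRC : S_STRC := p_STRC
theorem all_LINE : S_LINE := p_LINE all_PUSH all_RESM all_REGH all_CLS all_AFF all_ONE
theorem all_SWAP : S_SWAP := p_SWAP all_CELL all_TRANS all_LINE
theorem all_DIV : S_DIV := p_DIV
theorem all_SOC : S_SOC := p_SOC all_ADM all_BASIS
theorem all_STRA : S_STRA := p_STRA all_CELL
theorem all_STRB : S_STRB := p_STRB all_CELL
theorem all_STR : S_STR := p_STR all_DIM all_PUSH all_CLS all_CHI all_BR all_ADM all_CELL all_GINV all_SWAP all_DIV all_SOC all_STRA all_STRB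
theorem all_ECH : S_ECH := p_ECH all_HSUB all_DIM all_PUSH all_IPERM all_IADD all_RESM all_REGH all_CLS all_AFF all_ONE all_TRANS
theorem all_EXPL : S_EXPL := p_EXPL all_HSUB all_DIM all_PUSH all_IPERM all_AFFM all_CLS all_AFF all_ONE all_ECH
theorem all_ALINK : S_ALINK := p_ALINK all_HSUB all_DIM all_PUSH all_AFFM all_RESM all_REGH all_CLS all_AFF all_RESN all_TRANS all_ECH all_EXPL all_KAP
theorem all_TRC : S_TRC := p_TRC all_ADM all_CELL
theorem all_ABAD : S_ABAD := p_ABAD all_ADM all_CELL all_ECH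
theorem all_AGOOD : S_AGOOD := p_AGOOD all_ADM all_CELL all_CHI all_ABAD
theorem all_STEPA : S_STEPA := p_STEPA all_CELL all_CHI all_ECH all_ALINK all_BR all_GINV all_TRC all_ABAD all_AGOOD
theorem all_BOXS : S_BOXS := p_BOXS all_PISO all_SCHUR all_BOXH
theorem all_BOXM : S_BOXM := p_BOXM all_PISO all_HSUB all_MULT all_DEC all_RESM all_BOXH all_BOXA all_BOXS
theorem all_SPIN : S_SPIN := p_SPIN all_CLIF
theorem all_CART : S_CART := p_CART all_CLIF all_VF all_DIAG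
theorem all_MIX : S_MIX := p_MIX all_PISO all_HSUB all_EXT
theorem all_HOLD : S_HOLD := p_HOLD all_PISO all_HSUB all_DIAG all_KOS all_MIX all_CART
theorem all_REES : S_REES := p_REES
theorem all_LATT : S_LATT := p_LATT all_NORD all_REES all_VF
theorem all_WMX : S_WMX := p_WMX all_EIG all_DIAG all_VF
theorem all_LAG : S_LAG := p_LAG all_VF
theorem all_EU : S_EU := p_EU all_VF all_LAG
theorem all_MUP : S_MUP := p_MUP all_VF all_LAG all_EU
theorem all_FIB : S_FIB := p_FIB all_NORD all_REES all_MUP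
theorem all_FIBW : S_FIBW := p_FIBW all_DIAG all_REES all_VF all_FIB
theorem all_EQV : S_EQV := p_EQV all_REES all_VF
theorem all_FE : S_FE := p_FE all_DESC all_EU
theorem all_TI : S_TI := p_TI all_REES all_EQV all_FE
theorem all_LOW : S_LOW := p_LOW all_DIAG
theorem all_ANN : S_ANN := p_ANN all_DIAG
theorem all_GRK : S_GRK := p_GRK all_CLIF all_DIAG all_LOW all_ANN
theorem all_GRM : S_GRM := p_GRM all_DESC all_DIAG all_REES
theorem all_ACY : S_ACY := p_ACY all_DIAG all_REES all_VF all_CLIF all_GRK all_GRM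
theorem all_KZ : S_KZ := p_KZ all_DIM all_PUSH all_RESM all_KAP all_CLIF all_KOS all_ACY
theorem all_FRAME : S_FRAME := p_FRAME all_VF
theorem all_PURE : S_PURE := p_PURE all_CLIF
theorem all_CPA : S_CPA := p_CPA
theorem all_CPB : S_CPB := p_CPB all_CLIF all_VF
theorem all_KFG : S_KFG := p_KFG all_CLIF
theorem all_CP : S_CP := p_CP all_CLIF all_VF all_FRAME all_PURE all_CPA all_CPB all_KFG
theorem all_LIFTA : S_LIFTA := p_LIFTA all_REES all_EQV all_CLIF all_GRM all_CP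
theorem all_LBA : S_LBA := p_LBA all_DIAG all_REES all_VF all_CLIF all_CART
theorem all_LBB : S_LBB := p_LBB all_DESC all_REES all_VF all_CLIF all_CART all_KFG
theorem all_LIFTB : S_LIFTB := p_LIFTB all_REES all_FE all_LBA all_LBB
theorem all_LIFTC : S_LIFTC := p_LIFTC all_DIAG all_REES all_VF all_CART
theorem all_MINW : S_MINW := p_MINW all_PISO all_HSUB all_DESC all_LEN all_MULT all_RESM
theorem all_DIRAC : S_DIRAC := p_DIRAC all_MULT all_EIG all_VF all_KAP all_SPIN all_CART all_HOLD all_LATT all_WMX all_FIBW all_TI all_KZ all_LIFTA all_LIFTB all_LIFTC all_MINW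
theorem all_PBW : S_PBW := p_PBW all_VF all_DIAG
theorem all_INTG : S_INTG := p_INTG all_PISO all_MULT all_DEC all_INT all_AFFM all_CLS all_VF all_ADM all_GINV all_PBW
theorem all_REW : S_REW := p_REW all_PUSH all_CLS all_TRANS all_GINV
theorem all_SHC : S_SHC := p_SHC
theorem all_PROD : S_PROD := p_PROD all_REG all_REGH all_CLS all_BOXH
theorem all_PRODI : S_PRODI := p_PRODI all_PUSH all_RESM all_REGH all_CLS all_AFF all_BOXP all_PROD
theorem all_SHA : S_SHA := p_SHA all_ADM all_CELL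
theorem all_SHB : S_SHB := p_SHB all_ADM all_CELL all_TRANS all_GINV
theorem all_SHUF : S_SHUF := p_SHUF all_PUSH all_CLS all_LOCT all_PRODI all_FUB all_CELL all_GINV all_SHA all_SHB
theorem all_RTR : S_RTR := p_RTR
theorem all_RDBL : S_RDBL := p_RDBL all_ADM
theorem all_INST : S_INST := p_INST all_VF all_ADM all_RIGQ all_RTR all_RDBL
theorem all_UNIQ : S_UNIQ := p_UNIQ all_PISO all_MULT all_DEC all_PUSH all_RESM all_BOXH all_BOXS all_BOXM all_CLS all_KAP all_DIRAC all_INTG all_REW all_SHC all_SHUF all_INST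
theorem all_OCR : S_OCR := p_OCR all_ADM all_RIGQ
theorem all_OTAN : S_OTAN := p_OTAN all_PSOL all_ADM
theorem all_OBLK : S_OBLK := p_OBLK all_ADM
theorem all_OLIFT : S_OLIFT := p_OLIFT
theorem all_OONE : S_OONE := p_OONE all_ADM all_OLIFT all_OBLK
theorem all_OTWO : S_OTWO := p_OTWO all_ADM all_OBLK
theorem all_OIND : S_OIND := p_OIND all_ADM all_RIGQ all_SOC all_OCR all_OTAN all_OBLK all_OONE all_OTWO
theorem all_MAIN : S_MAIN := p_MAIN all_PISO all_MULT all_DEC all_CLS all_CHI all_KAP all_BR all_ADM all_RIGQ all_GINV all_GRAD all_STRC all_STR all_STEPA all_UNIQ all_OCR all_OIND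

end Pool.Agent.P.MP_52ab5a_al
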