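import Mathlib

/-!
Modules over Weyl algebras, direct images of constructible sets in the Grothendieck group,
flags, the nilpotent variety of a preprojective algebra, and the dual canonical basis at `q = 1`.
-/

namespace Pool.Agent.P.MP_52ab5a_al

open MvPolynomial

/-- A complex vector space with operators `X s` (coordinates) and `D s` (derivatives). -/
structure WM (ι : Type) : Type 1 where
  protected V : Type
  [grp : AddCommGroup V]
  [mod : Module ℂ V]
  protected X : ι → Module.End ℂ V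
  protected D : ι → Module.End ℂ V

attribute [instance] WM.grp WM.mod

namespace WM

variable {ι : Type}

/-- The relations of the Weyl algebra: `N` is a `D`-module on the affine space `ι → ℂ`. -/
def IsW (N : WM ι) : Prop :=
  (∀ s t, N.X s * N.X t = N.X t * N.X s) ∧ (∀ s t, N.D s * N.D t = N.D t * N.D s) ∧
    (∀ s, N.D s * N.X s - N.X s * N.D s = 1) ∧ ∀ s t, s ≠ t → N.D s * N.X t = N.X t * N.D s

/-- `B` is a `D`-submodule. -/
def Stable (N : WM ι) (B : Submodule ℂ N.V) : Prop :=
  ∀ s, ∀ v ∈ B, N.X s v ∈ B ∧ N.D s v ∈ B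

/-- `L` is a simple `D`-module. -/
def Simple (L : WM ι) : Prop :=
  L.IsW ∧ Nontrivial L.V ∧ ∀ B : Submodule ℂ L.V, L.Stable B → B = ⊥ ∨ B = ⊤

/-- `B ≤ Z` are `D`-submodules of `N` and `Z / B` is isomorphic to `L`. -/
def IsFactor (L N : WM ι) (B Z : Submodule ℂ N.V) : Prop :=
  B ≤ Z ∧ N.Stable B ∧ N.Stable Z ∧ ∃ f : N.V →ₗ[ℂ] L.V, (∀ z ∈ Z, f z = 0 ↔ z ∈ B) ∧
    Z.map f = ⊤ ∧ ∀ s, ∀ z ∈ Z, f (N.X s z) = L.X s (f z) ∧ f (N.D s z) = L.D s (f z)

/-- The multiplicity of `L` in `Z / B`: the largest number of factors isomorphic to `L` in a chain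
of submodules between `B` and `Z`. -/
noncomputable def mult (L N : WM ι) (B Z : Submodule ℂ N.V) : ℤ :=
  (sSup {n : ℕ | ∃ lo hi : Fin n → Submodule ℂ N.V, (∀ j, L.IsFactor N (lo j) (hi j)) ∧
    (∀ j, B ≤ lo j ∧ hi j ≤ Z) ∧ ∀ j k, j < k → hi j ≤ lo k} : ℕ)

/-- The dimension of `Z / B`. -/
noncomputable def dim (N : WM ι) (B Z : Submodule ℂ N.V) : ℤ :=
  (Module.finrank ℂ (Z.map B.mkQ) : ℕ)

end WM

section Regular

variable {ι : Type}

open Classical in
/-- The map `g ↦ g (x + ε e_s)` from polynomials to dual numbers over `ℂ[x][1 / f]`. -/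
noncomputable def jet (f : MvPolynomial ι ℂ) (s : ι) :
    MvPolynomial ι ℂ →ₐ[ℂ] DualNumber (Localization.Away f) :=
  aeval fun t => TrivSqZeroExt.inl (algebraMap (MvPolynomial ι ℂ) (Localization.Away f) (X t)) +
    TrivSqZeroExt.inr (if t = s then 1 else 0)

theorem fst_jet (f : MvPolynomial ι ℂ) (s : ι) (g : MvPolynomial ι ℂ) :
    (jet f s g).fst = algebraMap (MvPolynomial ι ℂ) (Localization.Away f) g := by
  have : (TrivSqZeroExt.fstHom ℂ (Localization.Away f) (Localization.Away f)).comp (jet f s) =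
      IsScalarTower.toAlgHom ℂ (MvPolynomial ι ℂ) (Localization.Away f) := by
    ext t; by_cases h : t = s <;> simp [jet, h]
  exact DFunLike.congr_fun this g

theorem isUnit_jet (f : MvPolynomial ι ℂ) (s : ι) : IsUnit (jet f s f) := by
  rw [TrivSqZeroExt.isUnit_iff_isUnit_fst, fst_jet]
  exact IsLocalization.Away.algebraMap_isUnit f

/-- The `D`-module `ℂ[x][1 / f]` of regular functions on the set where `f ≠ 0`; the derivative
`∂ g / ∂ x_s` is the coefficient of `ε` in `g (x + ε e_s)`. -/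
noncomputable def reg (f : MvPolynomial ι ℂ) : WM ι where
  V := Localization.Away f
  X s := LinearMap.mulLeft ℂ (algebraMap (MvPolynomial ι ℂ) (Localization.Away f) (X s))
  D s := ((TrivSqZeroExt.sndHom (Localization.Away f) (Localization.Away f)).restrictScalars ℂ).comp
    (IsLocalization.Away.liftAlgHom (S := Localization.Away f) f (isUnit_jet f s)).toLinearMap

open Classical in
/-- The indicator function of `S` is `∑ c f * (indicator function of {f ≠ 0})`. -/
def IsPres (S : Set (ι → ℂ)) (c : MvPolynomial ι ℂ →₀ ℤ) : Prop :=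
  ∀ x, (c.sum fun f n => if eval x f = 0 then 0 else n) = if x ∈ S then 1 else 0

/-- A presentation of the indicator function of a constructible set. -/
noncomputable def pres (S : Set (ι → ℂ)) : MvPolynomial ι ℂ →₀ ℤ := Classical.epsilon (IsPres S)

end Regular

section Direct

variable {τ σ : Type} [Fintype τ] [LinearOrder τ]

/-- Relative differential forms `∑ ω_I dy_I` with coefficients in `N`, as a module on the base. -/
@[reducible] def forms (N : WM (τ ⊕ σ)) : WM σ where
  V := Finset τ → N.V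
  X s := (N.X (Sum.inr s)).compLeft (Finset τ)
  D s := (N.D (Sum.inr s)).compLeft (Finset τ)

/-- The relative de Rham differential. -/
noncomputable def dR (N : WM (τ ⊕ σ)) : Module.End ℂ (forms N).V :=
  LinearMap.pi fun I : Finset τ => ∑ j ∈ I, (-1 : ℂ) ^ (I.filter (· < j)).card •
    (N.D (Sum.inl j)).comp (LinearMap.proj (R := ℂ) (φ := fun _ : Finset τ => N.V) (I.erase j))

/-- Forms of degree `k`. -/
def degForms (N : WM (τ ⊕ σ)) (k : ℕ) : Submodule ℂ (forms N).V :=
  Submodule.pi {I : Finset τ | I.card ≠ k} fun _ => ⊥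

/-- The alternating sum of `φ` over the relative de Rham cohomology modules of `N`. -/
noncomputable def euler (φ : (M : WM σ) → Submodule ℂ M.V → Submodule ℂ M.V → ℤ)
    (N : WM (τ ⊕ σ)) : ℤ :=
  ∑ k ∈ Finset.range (Fintype.card τ + 1), (-1) ^ k *
    φ (forms N) (degForms N k ⊓ LinearMap.range (dR N)) (degForms N k ⊓ LinearMap.ker (dR N))

/-- The value of `φ` on the class, in the Grothendieck group of holonomic `D`-modules on `σ → ℂ`,
of the direct image of the constructible set `S` under the projection to `σ → ℂ`. -/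
noncomputable def direct (φ : (M : WM σ) → Submodule ℂ M.V → Submodule ℂ M.V → ℤ)
    (S : Set (τ ⊕ σ → ℂ)) : ℤ :=
  (pres S).sum fun f n => n * euler φ (reg f)

/-- The (algebraic de Rham) Euler characteristic of a constructible set. -/
noncomputable def chi (S : Set (τ → ℂ)) : ℤ :=
  direct (σ := Empty) WM.dim {z | z ∘ Sum.inl ∈ S}

end Direct

section Zariski

variable {ι : Type}

/-- Zariski closed sets. -/
def ZClosed (W : Set (ι → ℂ)) : Prop :=
  ∃ T : Set (MvPolynomial ι ℂ), W = {x | ∀ f ∈ T, eval x f = 0}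

/-- Irreducible Zariski closed sets. -/
def Irred (Z : Set (ι → ℂ)) : Prop :=
  ZClosed Z ∧ Z.Nonempty ∧ ∀ A B, ZClosed A → ZClosed B → Z ⊆ A ∪ B → Z ⊆ A ∨ Z ⊆ B

/-- `Z` is an irreducible component of `Λ`. -/
def IsComponent (Z Λ : Set (ι → ℂ)) : Prop :=
  Irred Z ∧ Z ⊆ Λ ∧ ∀ Z', Irred Z' → Z' ⊆ Λ → Z ⊆ Z' → Z' = Z

/-- `U` is Zariski open in `Λ`. -/
def OpenIn (U Λ : Set (ι → ℂ)) : Prop := ∃ W, ZClosed W ∧ U = Λ \ W

/-- `F` has the value `a` on a nonempty Zariski open subset of `Z`. -/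
def GenericValue {α : Type} (Z : Set (ι → ℂ)) (F : (ι → ℂ) → α) (a : α) : Prop :=
  ∃ U, OpenIn U Z ∧ U.Nonempty ∧ ∀ y ∈ U, F y = a

end Zariski

section Flags

variable {Q₀ β κ : Type} [LinearOrder β] [LinearOrder κ]

/-- The matrix with columns `v k`, `k : κ`, whose entries are the coordinates `y`. -/
def cols (y : β ×ₗ κ → ℂ) : Matrix β κ ℂ := Matrix.of fun b k => y (toLex (b, k))

/-- The columns are in reduced echelon form with pivots `w k`, and the column `k` lies in the
summand `V (i k)` of `V`. -/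
def Cell (vx : β → Q₀) (i : κ → Q₀) (w : κ ≃ β) (g : Matrix β κ ℂ) : Prop :=
  ∀ k, vx (w k) = i k ∧ g (w k) k = 1 ∧
    ∀ b, (w k < b ∨ vx b ≠ i k ∨ ∃ j < k, b = w j) → g b k = 0

/-- Complete flags of graded subspaces of type `i`, given by their reduced echelon bases. -/
def Echelon (vx : β → Q₀) (i : κ → Q₀) (g : Matrix β κ ℂ) : Prop := ∃ w, Cell vx i w g

/-- The `k`-th step of the flag: the span of the columns `j ≤ k`. -/
def step (g : Matrix β κ ℂ) (k : κ) : Submodule ℂ (β → ℂ) :=
  Submodule.span ℂ {v | ∃ j ≤ k, v = fun b => g b j}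

/-- The matrix `A` preserves each step of the flag. -/
def Fixes [Fintype β] (A : Matrix β β ℂ) (g : Matrix β κ ℂ) : Prop :=
  ∀ k, ∀ v ∈ step g k, A.mulVec v ∈ step g k

end Flags

section Quiver

variable {Q₀ Q₁ β : Type} [DecidableEq Q₀] (s t : Q₁ → Q₀) (vx : β → Q₀)

/-- The coordinates on the representation space of the quiver on `V = ⊕ V i`, where the basis
vector `b` lies in `V (vx b)`: the entries `(c, b)` of the matrix of an arrow `a`. -/
abbrev Ent : Type := {p : Q₁ × β × β // vx p.2.1 = t p.1 ∧ vx p.2.2 = s p.1}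

/-- The matrix of the arrow `a`, as an endomorphism of `V`. -/
def mat (x : Ent s t vx → ℂ) (a : Q₁) : Matrix β β ℂ :=
  Matrix.of fun c b => if h : vx c = t a ∧ vx b = s a then x ⟨(a, c, b), h⟩ else 0

/-- The matrices of the arrows `a` and `a*` of the double quiver. -/
def dbl (y : Ent s t vx ⊕ Ent s t vx → ℂ) : Q₁ ⊕ Q₁ → Matrix β β ℂ :=
  Sum.elim (mat s t vx (y ∘ Sum.inl)) fun a => (mat s t vx (y ∘ Sum.inr) a).transpose

variable [Fintype Q₁] [Fintype β] [LinearOrder β]

/-- The nilpotent variety. -/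
def nilVar : Set (Ent s t vx ⊕ Ent s t vx → ℂ) :=
  {y | ∑ a, (dbl s t vx y (Sum.inr a) * dbl s t vx y (Sum.inl a) -
      dbl s t vx y (Sum.inl a) * dbl s t vx y (Sum.inr a)) = 0 ∧
    ∃ m, ∀ l : List (Q₁ ⊕ Q₁), l.length = m → (l.map (dbl s t vx y)).prod = 0}

/-- The orbit under the product of the groups `GL (V i)`. -/
def orbit (y : Ent s t vx ⊕ Ent s t vx → ℂ) : Set (Ent s t vx ⊕ Ent s t vx → ℂ) :=
  {z | ∃ γ : Matrix β β ℂ, IsUnit γ ∧ (∀ c b, vx c ≠ vx b → γ c b = 0) ∧
    ∀ a, γ * dbl s t vx y a = dbl s t vx z a * γ}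

variable {κ : Type} [Fintype κ] [LinearOrder κ]

/-- The Euler characteristic of the variety of composition series of type `i` of the module `y`:
the value at `y` of the convolution product of the functions `1_{i k}`. -/
noncomputable def flagChi (i : κ → Q₀) (y : Ent s t vx ⊕ Ent s t vx → ℂ) : ℤ :=
  chi {g : β ×ₗ κ → ℂ | Echelon vx i (cols g) ∧ ∀ a, Fixes (dbl s t vx y a) (cols g)}

/-- The types of the composition series of the module `y`. -/
def types (κ : Type) [LinearOrder κ] (y : Ent s t vx ⊕ Ent s t vx → ℂ) : Set (κ → Q₀) :=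
  {i | ∃ g, Echelon vx i g ∧ ∀ a, Fixes (dbl s t vx y a) g}

/-- The pairs of a flag of type `i` and a representation of the quiver preserving it. -/
def flagBundle (i : κ → Q₀) : Set ((β ×ₗ κ) ⊕ Ent s t vx → ℂ) :=
  {z | Echelon vx i (cols (z ∘ Sum.inl)) ∧
    ∀ a, Fixes (mat s t vx (z ∘ Sum.inr) a) (cols (z ∘ Sum.inl))}

/-- The multiplicity of `L` in the class of the direct image of the flag bundle of type `i`. -/
noncomputable def coef (L : WM (Ent s t vx)) (i : κ → Q₀) : ℤ :=
  direct L.mult (flagBundle s t vx i)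

/-- The dual canonical basis at `q = 1`, as functions on the words `i`. -/
def dualCan (κ : Type) [Fintype κ] [LinearOrder κ] : Set ((κ → Q₀) → ℤ) :=
  {b | ∃ L : WM (Ent s t vx), L.Simple ∧ (b = coef s t vx L ∨ b = -coef s t vx L) ∧ ∃ i, 0 < b i}

end Quiver

/-- The string of a set `W` of words in the directions `j₁, j₂, …`: the word
`j₁ ^ a₁ j₂ ^ a₂ ⋯`, where `a₁` is the largest `a` such that a word of `W` starts with `j₁ ^ a`,
then `a₂` is the largest `a` such that a word of `W` starts with `j₁ ^ a₁ j₂ ^ a`, and so on. -/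
noncomputable def str {Q₀ : Type} {n : ℕ} (W : Set (Fin n → Q₀)) (js : List Q₀) : List Q₀ :=
  js.foldl (fun u j =>
    u ++ List.replicate (sSup {a | ∃ i ∈ W, u ++ List.replicate a j <+: List.ofFn i}) j) []

/-- The open orbit conjecture. -/
def OOC : Prop :=
  ∀ (Q₀ Q₁ : Type) [DecidableEq Q₀] [Fintype Q₁] (s t : Q₁ → Q₀), (∀ a, s a ≠ t a) →
    ∀ (n : ℕ) (vx : Fin n → Q₀) (Z : Set (Ent s t vx ⊕ Ent s t vx → ℂ)),
      IsComponent Z (nilVar s t vx) →
      (∃ y, orbit s t vx y ⊆ Z ∧ OpenIn (orbit s t vx y) (nilVar s t vx)) →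
      ∃ b ∈ dualCan s t vx (Fin n),
        (∀ js, GenericValue Z (fun y => str (types s t vx (Fin n) y) js) (str {i | b i ≠ 0} js)) ∧
        ∀ i, GenericValue Z (flagChi s t vx i) (b i)

end Pool.Agent.P.MP_52ab5a_al
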