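import Pool.Agent.P.MP_52ab5a_al.All

/-! An orbit that is open in a component of the nilpotent variety is open in the variety. -/

namespace Pool.Agent.P.MP_52ab5a_al

open MvPolynomial

namespace OpenZAux

variable {ι : Type}

theorem zc_of_poly {α : Type} (F : α → (ι → ℂ) → ℂ) (h : ∀ a, PolyFn (F a)) :
    ZClosed {x | ∀ a, F a x = 0} := by
  choose p hp using h
  refine ⟨Set.range p, Set.ext fun x => ⟨?_, fun hx a => ?_⟩⟩
  · rintro hx _ ⟨a, rfl⟩
    rw [← hp]; exact hx a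
  · rw [hp]; exact hx _ ⟨a, rfl⟩

theorem zc_union {A B : Set (ι → ℂ)} (hA : ZClosed A) (hB : ZClosed B) : ZClosed (A ∪ B) := by
  obtain ⟨S, rfl⟩ := hA
  obtain ⟨T, rfl⟩ := hB
  refine ⟨{h | ∃ f ∈ S, ∃ g ∈ T, h = f * g}, Set.ext fun x => ⟨?_, fun hx => ?_⟩⟩
  · rintro hx _ ⟨f, hf, g, hg, rfl⟩
    rcases hx with hx | hx
    · simp [hx f hf]
    · simp [hx g hg]
  · by_contra hne
    simp only [Set.mem_union, Set.mem_setOf_eq, not_or, not_forall] at hne
    obtain ⟨⟨f, hf, hf0⟩, g, hg, hg0⟩ := hne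
    exact mul_ne_zero hf0 hg0 (by simpa using hx _ ⟨f, hf, g, hg, rfl⟩)

theorem zc_inter {A B : Set (ι → ℂ)} (hA : ZClosed A) (hB : ZClosed B) : ZClosed (A ∩ B) := by
  obtain ⟨S, rfl⟩ := hA
  obtain ⟨T, rfl⟩ := hB
  exact ⟨S ∪ T, Set.ext fun x => ⟨fun hx f hf => hf.elim (hx.1 f) (hx.2 f),
    fun hx => ⟨fun f hf => hx f (Or.inl hf), fun f hf => hx f (Or.inr hf)⟩⟩⟩

theorem zc_empty : ZClosed (∅ : Set (ι → ℂ)) := ⟨{1}, by ext x; simp⟩

/-- The ideal of a set. -/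
noncomputable def vi (W : Set (ι → ℂ)) : Ideal (MvPolynomial ι ℂ) := ⨅ x : W, RingHom.ker (eval x.1)

theorem mem_vi {W : Set (ι → ℂ)} {f : MvPolynomial ι ℂ} : f ∈ vi W ↔ ∀ x ∈ W, eval x f = 0 := by
  simp [vi, Ideal.mem_iInf, RingHom.mem_ker]

theorem vi_lt {A W : Set (ι → ℂ)} (hA : ZClosed A) (h : A ⊆ W) (hne : ¬W ⊆ A) : vi W < vi A := by
  refine lt_of_le_of_ne (fun f hf => mem_vi.2 fun x hx => mem_vi.1 hf x (h hx)) fun e => hne ?_
  obtain ⟨T, rfl⟩ := hA
  intro x hx f hf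
  have : f ∈ vi W := by rw [e]; exact mem_vi.2 fun y hy => hy f hf
  exact mem_vi.1 this x hx

theorem split [Finite ι] (Z : Set (ι → ℂ)) (hZ : Irred Z) (Λ : Set (ι → ℂ))
    (hmax : ∀ Z', Irred Z' → Z' ⊆ Λ → Z ⊆ Z' → Z' = Z) :
    ∀ A, ZClosed A → A ⊆ Λ → ∃ W, ZClosed W ∧ A ⊆ Z ∪ W ∧ ¬Z ⊆ W := by
  suffices h : ∀ I : Ideal (MvPolynomial ι ℂ), ∀ A, vi A = I → ZClosed A → A ⊆ Λ →
      ∃ W, ZClosed W ∧ A ⊆ Z ∪ W ∧ ¬Z ⊆ W from fun A => h _ A rfl
  intro I
  induction I using WellFoundedGT.induction with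
  | _ I ih =>
    rintro A rfl hA hΛ
    by_cases hZA : Z ⊆ A
    · by_cases hI : Irred A
      · refine ⟨∅, zc_empty, by simp [hmax A hI hΛ hZA], fun h => ?_⟩
        obtain ⟨x, hx⟩ := hZ.2.1
        exact h hx
      · have hne : A.Nonempty := hZ.2.1.mono hZA
        simp only [Irred, hA, hne, true_and, not_forall, not_or] at hI
        obtain ⟨B, C, hB, hC, hBC, h1, h2⟩ := hI
        obtain ⟨W₁, hW₁, s1, n1⟩ := ih _ (vi_lt (zc_inter hA hB) Set.inter_subset_left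
          fun h => h1 fun x hx => (h hx).2) _ rfl (zc_inter hA hB) fun x hx => hΛ hx.1
        obtain ⟨W₂, hW₂, s2, n2⟩ := ih _ (vi_lt (zc_inter hA hC) Set.inter_subset_left
          fun h => h2 fun x hx => (h hx).2) _ rfl (zc_inter hA hC) fun x hx => hΛ hx.1
        refine ⟨W₁ ∪ W₂, zc_union hW₁ hW₂, fun x hx => ?_, fun h => (hZ.2.2 _ _ hW₁ hW₂ h).elim n1 n2⟩
        rcases hBC hx with h | h
        · exact (s1 ⟨hx, h⟩).imp_right Or.inl
        · exact (s2 ⟨hx, h⟩).imp_right Or.inr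
    · exact ⟨A, hA, Set.subset_union_right, hZA⟩

theorem nil_bound {α β : Type} [Fintype β] [DecidableEq β] (A : α → Matrix β β ℂ) (m : ℕ)
    (h : ∀ l : List α, l.length = m → (l.map A).prod = 0) (l : List α)
    (hl : l.length = Fintype.card β) : (l.map A).prod = 0 := by
  obtain ⟨U, hU0, hU⟩ : ∃ U : ℕ → Submodule ℂ (β → ℂ), U 0 = ⊤ ∧
      ∀ k, U (k + 1) = ⨆ a, (U k).map (A a).mulVecLin :=
    ⟨fun k => Nat.rec ⊤ (fun _ X => ⨆ a, X.map (A a).mulVecLin) k, rfl, fun k => rfl⟩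
  have h1 : ∀ l : List α, ∀ v, (l.map A).prod.mulVec v ∈ U l.length := by
    intro l v
    induction l with
    | nil => simp [hU0]
    | cons a l ih =>
      rw [List.map_cons, List.prod_cons, ← Matrix.mulVec_mulVec, List.length_cons, hU]
      exact Submodule.mem_iSup_of_mem a (Submodule.mem_map_of_mem ih)
  have h2 : ∀ k, ∀ l : List α, l.length + k = m → ∀ v ∈ U k, (l.map A).prod.mulVec v = 0 := by
    intro k
    induction k with
    | zero => intro l hl v _; rw [h l hl, Matrix.zero_mulVec]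
    | succ k ih =>
      intro l hl v hv
      rw [hU] at hv
      have : (⨆ a, (U k).map (A a).mulVecLin) ≤ LinearMap.ker (l.map A).prod.mulVecLin := by
        refine iSup_le fun a => ?_
        rintro _ ⟨u, hu, rfl⟩
        have := ih (l ++ [a]) (by simp; omega) u hu
        simpa [Matrix.mulVec_mulVec] using this
      exact this hv
  have hm : U m = ⊥ := eq_bot_iff.2 fun v hv => by simpa using h2 m [] (by simp) v hv
  have hanti : ∀ k, U (k + 1) ≤ U k := by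
    intro k
    induction k with
    | zero => rw [hU0]; exact le_top
    | succ k ih =>
      exact (hU (k + 1)).le.trans ((iSup_mono fun a => Submodule.map_mono ih).trans (hU k).ge)
  have hst : ∀ k, U (k + 1) = U k → ∀ j, U (k + j) = U k := by
    intro k hk j
    induction j with
    | zero => rfl
    | succ j ih => rw [← add_assoc, hU, ih, ← hU, hk]
  have hz : ∀ k j, U k = ⊥ → U (k + j) = ⊥ := fun k j hk => by
    rw [hst k (le_antisymm (hanti k) (by rw [hk]; exact bot_le)) j, hk]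
  have h3 : ∀ k : ℕ, U k = ⊥ ∨ Module.finrank ℂ ↥(U k) + k ≤ Fintype.card β := by
    intro k
    induction k with
    | zero => right; simpa using Submodule.finrank_le (U 0)
    | succ k ih =>
      rcases ih with ih | ih
      · exact Or.inl (hz k 1 ih)
      · by_cases he : U (k + 1) = U k
        · left
          rw [he, ← hst k he m, add_comm]
          exact hz m k hm
        · right
          have := Submodule.finrank_lt_finrank_of_lt (lt_of_le_of_ne (hanti k) he)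
          omega
  have h4 : U (Fintype.card β) = ⊥ := by
    rcases h3 (Fintype.card β) with h | h
    · exact h
    · exact Submodule.finrank_eq_zero.1 (by omega)
  refine Matrix.ext_iff_mulVec.2 fun v => ?_
  have := h1 l v
  rw [hl, h4] at this
  simpa using this

variable {Q₀ Q₁ β : Type} [DecidableEq Q₀] (s t : Q₁ → Q₀) (vx : β → Q₀)

theorem poly_dbl (a : Q₁ ⊕ Q₁) (c b : β) : PolyFn fun y => dbl s t vx y a c b := by
  rcases a with a | a
  · exact PolyFn.dite _ (fun h => PolyFn.coord _) fun _ => PolyFn.const 0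
  · exact PolyFn.dite _ (fun h => PolyFn.coord _) fun _ => PolyFn.const 0

variable [Fintype Q₁] [Fintype β] [LinearOrder β]

theorem zc_nil : ZClosed (nilVar s t vx) := by
  have hp : ∀ (l : List (Q₁ ⊕ Q₁)) c b, PolyFn fun y => (l.map (dbl s t vx y)).prod c b := by
    intro l
    induction l with
    | nil => exact fun c b => PolyFn.const _
    | cons a l ih =>
      simp only [List.map_cons, List.prod_cons]
      exact PolyFn.matMul (poly_dbl s t vx a) ih
  have h1 := zc_of_poly (fun (p : β × β) y => (∑ a, (dbl s t vx y (Sum.inr a) * dbl s t vx y (Sum.inl a) -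
      dbl s t vx y (Sum.inl a) * dbl s t vx y (Sum.inr a))) p.1 p.2) fun p => by
    simp only [Matrix.sum_apply, Matrix.sub_apply]
    exact PolyFn.sum _ fun a _ => (PolyFn.matMul (poly_dbl s t vx _) (poly_dbl s t vx _) _ _).sub
      (PolyFn.matMul (poly_dbl s t vx _) (poly_dbl s t vx _) _ _)
  have h2 := zc_of_poly (fun (p : {l : List (Q₁ ⊕ Q₁) // l.length = Fintype.card β} × β × β) y =>
    (p.1.1.map (dbl s t vx y)).prod p.2.1 p.2.2) fun p => hp _ _ _
  have e : nilVar s t vx = _ ∩ _ := Set.ext fun y => (and_congr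
    ⟨fun h p => congrFun (congrFun h p.1) p.2, fun h => Matrix.ext fun c b => h (c, b)⟩
    ⟨fun ⟨m, hm⟩ p => by rw [nil_bound _ m hm p.1.1 p.1.2]; rfl,
      fun h => ⟨_, fun l hl => Matrix.ext fun c b => h (⟨l, hl⟩, c, b)⟩⟩ :
    _ ↔ y ∈ {x | ∀ p : β × β, (∑ a, (dbl s t vx x (Sum.inr a) * dbl s t vx x (Sum.inl a) -
      dbl s t vx x (Sum.inl a) * dbl s t vx x (Sum.inr a))) p.1 p.2 = 0} ∧
      y ∈ {x | ∀ p : {l : List (Q₁ ⊕ Q₁) // l.length = Fintype.card β} × β × β,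
        (p.1.1.map (dbl s t vx x)).prod p.2.1 p.2.2 = 0})
  rw [e]
  exact zc_inter h1 h2

/-- The conjugate of a point. -/
noncomputable def cj (γ δ : Matrix β β ℂ) (x : Ent s t vx ⊕ Ent s t vx → ℂ) :
    Ent s t vx ⊕ Ent s t vx → ℂ :=
  Sum.elim (fun p => (γ * dbl s t vx x (Sum.inl p.1.1) * δ) p.1.2.1 p.1.2.2)
    fun p => (γ * dbl s t vx x (Sum.inr p.1.1) * δ) p.1.2.2 p.1.2.1

theorem cj_eq {γ δ : Matrix β β ℂ} (hg : GInv vx γ δ) {x x' : Ent s t vx ⊕ Ent s t vx → ℂ}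
    (h : Intw s t vx γ x x') : cj s t vx γ δ x = x' := by
  have e : ∀ a, γ * dbl s t vx x a * δ = dbl s t vx x' a := fun a => by
    rw [h a, Matrix.mul_assoc, hg.mul, Matrix.mul_one]
  funext i
  rcases i with p | p
  · show (γ * dbl s t vx x (Sum.inl p.1.1) * δ) p.1.2.1 p.1.2.2 = _
    rw [e]
    exact dif_pos p.2
  · show (γ * dbl s t vx x (Sum.inr p.1.1) * δ) p.1.2.2 p.1.2.1 = _
    rw [e]
    exact dif_pos p.2

theorem poly_cj (γ δ : Matrix β β ℂ) (i) : PolyFn fun x => cj s t vx γ δ x i := by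
  have h : ∀ a c b, PolyFn fun x => (γ * dbl s t vx x a * δ) c b := fun a =>
    PolyFn.matMul (A := fun x => γ * dbl s t vx x a) (B := fun _ => δ)
      (PolyFn.matMul (A := fun _ => γ) (fun _ _ => PolyFn.const _) (poly_dbl s t vx a))
      fun _ _ => PolyFn.const _
  rcases i with p | p
  · exact h _ _ _
  · exact h _ _ _

theorem open_nil (Z : Set (Ent s t vx ⊕ Ent s t vx → ℂ)) (hZ : IsComponent Z (nilVar s t vx))
    (y) (h : OpenIn (orbit s t vx y) Z) : OpenIn (orbit s t vx y) (nilVar s t vx) := by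
  classical
  have hA := all_ADM Q₀ Q₁ β s t vx
  have hself : ∀ x, x ∈ orbit s t vx x := fun x =>
    ⟨1, isUnit_one, fun c b h => Matrix.one_apply_ne fun e => h (by rw [e]), fun a => by simp⟩
  have horb : ∀ x x', x' ∈ orbit s t vx x → ∃ γ δ, GInv vx γ δ ∧ Intw s t vx γ x x' := by
    rintro x x' ⟨γ, hu, hd, hi⟩
    obtain ⟨δ, hδ⟩ := hA.2.2.2.2.2.2.2.2.2.2.2.2.2.2.2.2.2.2.2 γ hu hd
    exact ⟨γ, δ, hδ, hi⟩
  obtain ⟨W₁, hW₁, e₁⟩ := h
  obtain ⟨W₂, hW₂, s2, n2⟩ := split Z hZ.1 _ hZ.2.2 _ (zc_nil s t vx) subset_rfl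
  obtain ⟨T, hT⟩ := zc_union hW₁ hW₂
  obtain ⟨y', hy'Z, hy'⟩ : ∃ y' ∈ Z, y' ∉ W₁ ∪ W₂ := by
    by_contra hne
    push Not at hne
    rcases hZ.1.2.2 _ _ hW₁ hW₂ hne with h | h
    · have := hself y
      rw [e₁] at this
      exact this.2 (h this.1)
    · exact n2 h
  have hy'O : y' ∈ orbit s t vx y := by rw [e₁]; exact ⟨hy'Z, fun h => hy' (Or.inl h)⟩
  refine ⟨_, zc_of_poly (fun (p : {p : Matrix β β ℂ × Matrix β β ℂ // GInv vx p.1 p.2} × T) x =>
    eval (cj s t vx p.1.1.1 p.1.1.2 x) p.2.1)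
    (fun p => (PolyFn.eval p.2.1).comp (poly_cj s t vx _ _)), Set.ext fun x => ⟨fun hx => ?_, ?_⟩⟩
  · refine ⟨hZ.2.1 (by rw [e₁] at hx; exact hx.1), fun hall => hy' ?_⟩
    obtain ⟨γ, δ, hg, hi⟩ := horb y x hx
    have e := ((all_RIGQ Q₀ Q₁ β s t vx y).2 γ δ x hg hi).2.2
    obtain ⟨γ', δ', hg', hi'⟩ := horb x y' (e ▸ hy'O)
    rw [hT]
    intro f hf
    rw [← cj_eq s t vx hg' hi']
    exact hall (⟨(γ', δ'), hg'⟩, ⟨f, hf⟩)
  · rintro ⟨hxN, hx⟩
    simp only [Set.mem_setOf_eq, not_forall] at hx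
    obtain ⟨⟨⟨⟨γ, δ⟩, hg⟩, f, hf⟩, hne⟩ := hx
    obtain ⟨x', hx'⟩ := hA.2.2.2.2.1 (fun a => γ * dbl s t vx x a * δ) fun a c b hcb => by
      simp only [Matrix.mul_apply] at hcb
      obtain ⟨b', -, h1⟩ := Finset.exists_ne_zero_of_sum_ne_zero hcb
      obtain ⟨c', -, h2⟩ := Finset.exists_ne_zero_of_sum_ne_zero (left_ne_zero_of_mul h1)
      have h3 := hA.2.2.2.2.2.1 x a c' b' (right_ne_zero_of_mul h2)
      constructor
      · rw [← h3.1]; by_contra hne; exact left_ne_zero_of_mul h2 (hg.gd c c' hne)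
      · rw [← h3.2]; by_contra hne; exact right_ne_zero_of_mul h1 (hg.gd' b' b (Ne.symm hne))
    have hi : Intw s t vx γ x x' := fun a => by
      rw [hx' a, Matrix.mul_assoc, hg.mul', Matrix.mul_one]
    obtain ⟨-, hN, e⟩ := (all_RIGQ Q₀ Q₁ β s t vx x).2 γ δ x' hg hi
    have hW : x' ∉ W₁ ∪ W₂ := by
      rw [hT]
      intro hall
      exact hne (by simpa [cj_eq s t vx hg hi] using hall f hf)
    have hO : x' ∈ orbit s t vx y := by
      rw [e₁]
      exact ⟨(s2 (hN hxN)).resolve_right fun h => hW (Or.inr h), fun h => hW (Or.inl h)⟩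
    obtain ⟨γ', δ', hg', hi'⟩ := horb y x' hO
    rw [((all_RIGQ Q₀ Q₁ β s t vx y).2 γ' δ' x' hg' hi').2.2, ← e]
    exact hself x

end OpenZAux

end Pool.Agent.P.MP_52ab5a_al
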